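import Pool.Agent.Helper27.RV.St

/-!
# Project RV, module FIN
-/

set_option autoImplicit false

open Cardinal Ordinal Set

universe u

namespace Pool.Agent.Helper15.RV

open Pool.Agent.Helper65.GS Pool.Agent.Helper27.RV

theorem pFIN (h1 : StSUBD.{u}) (h2 : StUND.{u}) (h3 : StEMP.{u}) : StFIN.{u} := by
  intro K m L J c N δ b hK hJ hns hA hB hC hD hN
  by_contra hcon
  push Not at hcon
  apply hns
  -- the pieces
  let P : ℕ → Set L := fun n =>
    {l | IsCard (c l) ∧ ℵ₀ < (c l).cof ∧ ∀ s < c l, Cov K (b n).out (δ n) (c l).card s}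
  let F : ULift.{u} ℕ → Set L := fun i =>
    match i.down with
    | 0 => {l | ¬ IsCard (c l)}
    | 1 => {l | (c l).card ≤ #K}
    | 2 => {l | (c l).cof = ℵ₀}
    | 3 => {l | ℵ₀ < (c l).cof ∧ (c l).cof ≤ #K}
    | n + 4 => {l | n ∈ N ∧ l ∈ P n}
  have hF : ∀ i, Small K m J c (F i) := by
    rintro ⟨i⟩
    rcases i with _ | _ | _ | _ | n
    · exact hA
    · exact h3 K m L J c _ hJ hB
    · exact hC
    · exact hD
    · by_cases hn : n ∈ N
      · exact h1 K m L J c _ _ (hN n hn) (fun l hl => hl.2)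
      · refine h3 K m L J c _ hJ ?_
        have : F ⟨n + 4⟩ = ∅ := by
          ext l
          simp only [mem_empty_iff_false, iff_false]
          exact fun hl => hn hl.1
        show F ⟨n + 4⟩ ∈ J
        rw [this]
        exact hJ.empty
  have hU := h2 K m L (ULift.{u} ℕ) J c F hJ (by
    rw [mk_uLift, mk_nat, lift_aleph0]
    exact aleph0_le_aleph 1) hF
  refine h1 K m L J c _ _ hU ?_
  intro l _
  simp only [mem_iUnion]
  by_cases a1 : IsCard (c l)
  swap
  · exact ⟨⟨0⟩, a1⟩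
  by_cases a2 : (c l).card ≤ #K
  · exact ⟨⟨1⟩, a2⟩
  push Not at a2
  by_cases a3 : (c l).cof = ℵ₀
  · exact ⟨⟨2⟩, a3⟩
  have hlim : Order.IsSuccLimit (c l) := by
    have h := Cardinal.isSuccLimit_ord (hK.trans a2.le)
    unfold IsCard at a1
    rwa [a1] at h
  have a4 : ℵ₀ < (c l).cof := lt_of_le_of_ne (Ordinal.aleph0_le_cof.2 hlim) (Ne.symm a3)
  by_cases a5 : (c l).cof ≤ #K
  · exact ⟨⟨3⟩, a4, a5⟩
  obtain ⟨n, hn, hn2⟩ := hcon l a1 a2 a4
  exact ⟨⟨n + 4⟩, hn, a1, a4, hn2⟩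

end Pool.Agent.Helper15.RV
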